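import Pool.Agent.Lib.MP_6bc78b_nt.MS.QZ.Iface3

/-! Project MS, Part QZ (QG), module MOG: mixed moments of the prime sum over the zeros. -/

set_option autoImplicit false

open Complex Filter Topology MeasureTheory ArithmeticFunction

namespace Pool.Agent.Lib.MP_6bc78b_nt.MS.QZ.H88

open Pool.Agent.Lib.MP_6bc78b_nt.MS Pool.Agent.Lib.MP_6bc78b_nt.MS.P1
open Pool.Agent.Lib.MP_6bc78b_nt.MS.QZ

lemma ll_tendsto : Tendsto ll atTop atTop := Real.tendsto_log_atTop.comp Real.tendsto_log_atTop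

lemma cGL_ge : ∀ᶠ T : ℝ in atTop, T / 4 ≤ cG T * Real.log T := by
  filter_upwards [eventually_ge_atTop (4 : ℝ), Real.tendsto_log_atTop.eventually_ge_atTop 1]
    with T h4 hL
  have hL0 : 0 < Real.log T := by linarith
  have h1 : Real.log T ^ (2 / 3 : ℝ) ≤ Real.log T := by
    calc Real.log T ^ (2 / 3 : ℝ) ≤ Real.log T ^ (1 : ℝ) :=
          Real.rpow_le_rpow_of_exponent_le hL (by norm_num)
      _ = Real.log T := Real.rpow_one _
  have hp : 0 < Real.log T ^ (2 / 3 : ℝ) := Real.rpow_pos_of_pos hL0 _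
  have hs : Real.sqrt Real.pi ≤ 2 := by
    rw [Real.sqrt_le_left (by norm_num)]
    have := Real.pi_le_four
    linarith
  have hs0 : 0 < Real.sqrt Real.pi := Real.sqrt_pos.2 Real.pi_pos
  have e : cG T * Real.log T = T * Real.log T / (Real.log T ^ (2 / 3 : ℝ) *
      (2 * Real.sqrt Real.pi)) := by
    unfold cG DD
    field_simp
  rw [e, le_div_iff₀ (by positivity)]
  calc T / 4 * (Real.log T ^ (2 / 3 : ℝ) * (2 * Real.sqrt Real.pi))
      ≤ T / 4 * (Real.log T * (2 * 2)) := by gcongr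
    _ = T * Real.log T := by ring

lemma dl0 (T : ℝ) : dl T 0 = 1 / ll T ^ 2 := by
  unfold dl
  simp

lemma log_yy0 {T : ℝ} (hT : 0 < T) : Real.log (yy T 0) = Real.log T / ll T ^ 2 := by
  unfold yy
  rw [Real.log_rpow hT, dl0]
  ring

/-- The size of the sum of the reciprocals of the primes of the first block. -/
lemma r_asymp (h : Mr2Statement) (hB : BiuStatement) :
    Tendsto (fun T => rs (SS T 0) / ll T) atTop (𝓝 1) := by
  obtain ⟨C, hC, h1, -, -⟩ := h
  obtain ⟨T0, -, hB⟩ := hB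
  have hlog : Tendsto (fun x : ℝ => Real.log x / x) atTop (𝓝 0) :=
    Real.isLittleO_log_id_atTop.tendsto_div_nhds_zero
  have h2 : Tendsto (fun x : ℝ => C / x + 2 * (Real.log x / x)) atTop (𝓝 (0 + 2 * 0)) :=
    ((tendsto_const_nhds (x := C)).div_atTop tendsto_id).add (hlog.const_mul 2)
  have h3 := h2.comp ll_tendsto
  simp only [mul_zero, add_zero] at h3
  have h4 : Tendsto (fun T => rs (SS T 0) / ll T - 1) atTop (𝓝 0) := by
    refine squeeze_zero_norm' ?_ h3
    filter_upwards [eventually_ge_atTop T0, eventually_gt_atTop (0 : ℝ),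
      ll_tendsto.eventually_ge_atTop 1, Real.tendsto_log_atTop.eventually_ge_atTop 1]
      with T hT0 hT hl hL
    have hl0 : 0 < ll T := by linarith
    have hL0 : 0 < Real.log T := by linarith
    obtain ⟨-, -, -, hB4⟩ := hB T hT0
    have h5 := h1 (yy T 0) (by linarith [(hB4 0 (Nat.zero_le _)).1])
    rw [log_yy0 hT, Real.log_div hL0.ne' (by positivity), Real.log_pow] at h5
    have h6 : prs 1 (yy T 0) = SS T 0 := rfl
    have h7 : Real.log (Real.log T) = ll T := rfl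
    rw [h6, h7] at h5
    have h8 : rs (SS T 0) / ll T - 1 = ((rs (SS T 0) - (ll T - ((2 : ℕ) : ℝ) *
        Real.log (ll T))) - 2 * Real.log (ll T)) / ll T := by
      push_cast
      field_simp
      ring
    have hlog0 : 0 ≤ Real.log (ll T) := Real.log_nonneg hl
    rw [Real.norm_eq_abs, h8, abs_div, abs_of_pos hl0, div_le_iff₀ hl0]
    calc |rs (SS T 0) - (ll T - ((2 : ℕ) : ℝ) * Real.log (ll T)) - 2 * Real.log (ll T)|
        ≤ |rs (SS T 0) - (ll T - ((2 : ℕ) : ℝ) * Real.log (ll T))| +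
          |2 * Real.log (ll T)| := abs_sub _ _
      _ ≤ C + 2 * Real.log (ll T) := by
          rw [abs_of_nonneg (by positivity : (0 : ℝ) ≤ 2 * Real.log (ll T))]
          linarith
      _ = (C / ll T + 2 * (Real.log (ll T) / ll T)) * ll T := by field_simp
  have h9 := h4.add_const 1
  simpa using h9

lemma gA0 (T : ℝ) (a : ℕ) : gA 0 T 0 a = pS (SS T 0) ^ a := by
  unfold gA
  simp

/-- The facts on the powers of the prime sum, for `T` large. -/
lemma facts (h4 : Cf0Statement) (h5 : Pi0Statement) (a : ℕ) : ∀ᶠ T : ℝ in atTop,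
    Adm T (pS (SS T 0) ^ a) ∧ ∀ s : ℂ, DQ T (pS (SS T 0) ^ a) s = PS (SS T 0) s ^ a := by
  obtain ⟨T4, -, hcf⟩ := h4 (3 / 20) 0 0 (by norm_num) (by norm_num)
  obtain ⟨T5, -, hpi⟩ := h5 (3 / 20) 0 0 (by norm_num) (by norm_num)
  have e : (3 / 20 + 1 / 10 : ℝ) = 1 / 4 := by norm_num
  filter_upwards [eventually_ge_atTop T4, eventually_ge_atTop T5,
    ll_tendsto.eventually_ge_atTop (20 * (a : ℝ) + 1)] with T hT4 hT5 hl
  have ha0 : (0 : ℝ) ≤ a := Nat.cast_nonneg a
  have hl1 : 1 ≤ ll T := by linarith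
  have hd : dl T 0 * (a : ℝ) ≤ 1 / 20 := by
    rw [dl0, one_div, inv_mul_le_iff₀ (by positivity)]
    nlinarith
  constructor
  · intro n
    have h := (hcf T hT4 0 0 a (by simp) (Nat.zero_le _) hd n).2
    rw [gA0, e] at h
    exact h
  · intro s
    have h := (hpi T hT5 0 0 a (by simp) (Nat.zero_le _) hd s).2
    rw [gA0, e, Finset.range_zero, Finset.prod_empty, one_mul] at h
    exact h

/-- The main term. -/
lemma main_term (h2 : DiaStatement) (h4 : Cf0Statement) (h5 : Pi0Statement)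
    (h6 : BiuStatement) (h7 : Mr2Statement) (a b : ℕ) :
    Tendsto (fun T : ℝ => (∑ n ∈ Finset.Icc 1 (NQ T),
      (pS (SS T 0) ^ a) n * (pS (SS T 0) ^ b) n / (n : ℝ)) / Real.sqrt (ll T) ^ (a + b)) atTop
      (𝓝 (if a = b then (a.factorial : ℝ) else 0)) := by
  by_cases hab : a = b
  · subst hab
    rw [if_pos rfl]
    obtain ⟨C, hC, hd⟩ := h2.2 a
    have hr := r_asymp h7 h6
    obtain ⟨T6, -, hB⟩ := h6
    have hrt : Tendsto (fun T => rs (SS T 0)) atTop atTop := by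
      have h := hr.pos_mul_atTop one_pos ll_tendsto
      refine h.congr' ?_
      filter_upwards [ll_tendsto.eventually_ge_atTop 1] with T hl
      have hl0 : ll T ≠ 0 := by linarith
      field_simp
    have hpow : Tendsto (fun T => (a.factorial : ℝ) * (rs (SS T 0) / ll T) ^ a) atTop
        (𝓝 ((a.factorial : ℝ) * 1 ^ a)) := (hr.pow a).const_mul _
    rw [one_pow, mul_one] at hpow
    have herr : Tendsto (fun T => C * (rs (SS T 0) / ll T) ^ a / rs (SS T 0)) atTop (𝓝 0) :=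
      ((hr.pow a).const_mul C).div_atTop hrt
    have hdiff : Tendsto (fun T => (∑ n ∈ Finset.Icc 1 (NQ T),
        (pS (SS T 0) ^ a) n * (pS (SS T 0) ^ a) n / (n : ℝ)) / Real.sqrt (ll T) ^ (a + a) -
        (a.factorial : ℝ) * (rs (SS T 0) / ll T) ^ a) atTop (𝓝 0) := by
      refine squeeze_zero_norm' ?_ herr
      filter_upwards [eventually_ge_atTop T6, ll_tendsto.eventually_ge_atTop 1,
        hrt.eventually_ge_atTop 1, facts h4 h5 a] with T hT6 hl hr1 hfa
      have hl0 : 0 < ll T := by linarith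
      have h := hd (SS T 0) (NQ T) ((hB T hT6).1 0) hr1 (by
        intro n hn
        exact Nat.le_floor ((hfa.1 n).2 hn))
      have e : Real.sqrt (ll T) ^ (a + a) = ll T ^ a := by
        rw [← two_mul, pow_mul, Real.sq_sqrt hl0.le]
      have hla : 0 < ll T ^ a := by positivity
      rw [e, Real.norm_eq_abs]
      have e2 : (∑ n ∈ Finset.Icc 1 (NQ T),
          (pS (SS T 0) ^ a) n * (pS (SS T 0) ^ a) n / (n : ℝ)) / ll T ^ a -
          (a.factorial : ℝ) * (rs (SS T 0) / ll T) ^ a =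
          (∑ n ∈ Finset.Icc 1 (NQ T), (pS (SS T 0) ^ a) n * (pS (SS T 0) ^ a) n / (n : ℝ) -
            (a.factorial : ℝ) * rs (SS T 0) ^ a) / ll T ^ a := by
        rw [div_pow]
        ring
      rw [e2, abs_div, abs_of_pos hla, div_le_iff₀ hla]
      refine h.trans (le_of_eq ?_)
      rw [div_pow]
      field_simp
    have h := hdiff.add hpow
    simpa using h
  · rw [if_neg hab]
    have h : ∀ T : ℝ, (∑ n ∈ Finset.Icc 1 (NQ T),
        (pS (SS T 0) ^ a) n * (pS (SS T 0) ^ b) n / (n : ℝ)) / Real.sqrt (ll T) ^ (a + b) = 0 := by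
      intro T
      rw [h2.1 (SS T 0) a b (NQ T) hab, zero_div]
    simp only [h]
    exact tendsto_const_nhds

/-- The diagonal sums are of size `r^a`. -/
lemma diag_le (h2 : DiaStatement) (h4 : Cf0Statement) (h5 : Pi0Statement)
    (h6 : BiuStatement) (h7 : Mr2Statement) (a : ℕ) : ∃ K : ℝ, 0 < K ∧ ∀ᶠ T : ℝ in atTop,
    0 ≤ ∑ n ∈ Finset.Icc 1 (NQ T), (pS (SS T 0) ^ a) n ^ 2 / (n : ℝ) ∧
    ∑ n ∈ Finset.Icc 1 (NQ T), (pS (SS T 0) ^ a) n ^ 2 / (n : ℝ) ≤ K * ll T ^ a := by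
  have h := (main_term h2 h4 h5 h6 h7 a a).eventually_lt_const
    (show (if a = a then (a.factorial : ℝ) else 0) < (a.factorial : ℝ) + 1 by
      rw [if_pos rfl]; linarith)
  refine ⟨(a.factorial : ℝ) + 1, by positivity, ?_⟩
  filter_upwards [h, ll_tendsto.eventually_ge_atTop 1] with T hT hl
  have hl0 : 0 < ll T := by linarith
  have e : Real.sqrt (ll T) ^ (a + a) = ll T ^ a := by
    rw [← two_mul, pow_mul, Real.sq_sqrt hl0.le]
  have hla : 0 < ll T ^ a := by positivity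
  rw [e, div_lt_iff₀ hla] at hT
  constructor
  · exact Finset.sum_nonneg (fun n _ => by positivity)
  · have e3 : ∑ n ∈ Finset.Icc 1 (NQ T), (pS (SS T 0) ^ a) n ^ 2 / (n : ℝ) =
        ∑ n ∈ Finset.Icc 1 (NQ T), (pS (SS T 0) ^ a) n * (pS (SS T 0) ^ a) n / (n : ℝ) :=
      Finset.sum_congr rfl (fun n _ => by rw [sq])
    rw [e3]
    exact hT.le

/-- The sums with the von Mangoldt function. -/
lemma lam_le (h3 : LamStatement) (h6 : BiuStatement) (h7 : Mr2Statement) (a b : ℕ) :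
    ∃ K : ℝ, 0 < K ∧ ∀ᶠ T : ℝ in atTop,
    |∑ n ∈ Finset.Icc 1 (NQ T), (La * pS (SS T 0) ^ a) n * (pS (SS T 0) ^ b) n / (n : ℝ)| ≤
      K * Real.log T / ll T ^ 2 * Real.sqrt (ll T) ^ (a + b) := by
  obtain ⟨C, hC, hlam⟩ := h3 a b
  have hr := r_asymp h7 h6
  obtain ⟨T6, -, hB⟩ := h6
  refine ⟨C * 2 ^ min a b, by positivity, ?_⟩
  filter_upwards [eventually_ge_atTop T6, ll_tendsto.eventually_ge_atTop 2,
    hr.eventually_lt_const (show (1 : ℝ) < 2 by norm_num),
    hr.eventually_const_lt (show (1 / 2 : ℝ) < 1 by norm_num), eventually_gt_atTop (0 : ℝ),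
    Real.tendsto_log_atTop.eventually_ge_atTop 1]
    with T hT6 hl hr2 hr1 hT0 hL
  have hl0 : 0 < ll T := by linarith
  have hL0 : 0 < Real.log T := by linarith
  rw [div_lt_iff₀ hl0] at hr2
  rw [lt_div_iff₀ hl0] at hr1
  have hr3 : 1 ≤ rs (SS T 0) := by linarith
  have h := hlam (yy T 0) (NQ T) ((hB T hT6).2.2.2 0 (Nat.zero_le _)).1 hr3
  rw [log_yy0 hT0] at h
  have h8 : ll T ^ min a b ≤ Real.sqrt (ll T) ^ (a + b) := by
    have hs1 : 1 ≤ Real.sqrt (ll T) := by
      rw [Real.one_le_sqrt]; linarith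
    calc ll T ^ min a b = Real.sqrt (ll T) ^ (2 * min a b) := by
          rw [pow_mul, Real.sq_sqrt hl0.le]
      _ ≤ Real.sqrt (ll T) ^ (a + b) := pow_le_pow_right₀ hs1 (by omega)
  refine h.trans ?_
  calc C * (Real.log T / ll T ^ 2) * rs (prs 1 (yy T 0)) ^ min a b
      ≤ C * (Real.log T / ll T ^ 2) * (2 * ll T) ^ min a b := by
        have h9 : rs (prs 1 (yy T 0)) ≤ 2 * ll T := hr2.le
        have h10 : 0 ≤ rs (prs 1 (yy T 0)) := by
          have : 1 ≤ rs (prs 1 (yy T 0)) := hr3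
          linarith
        gcongr
    _ = C * 2 ^ min a b * Real.log T / ll T ^ 2 * ll T ^ min a b := by
        rw [mul_pow]
        ring
    _ ≤ C * 2 ^ min a b * Real.log T / ll T ^ 2 * Real.sqrt (ll T) ^ (a + b) := by
        gcongr

/-- MOG: mixed moments of the prime sum over the zeros. -/
theorem mog (h1 : SmvStatement) (h2 : DiaStatement) (h3 : LamStatement) (h4 : Cf0Statement)
    (h5 : Pi0Statement) (h6 : BiuStatement) (h7 : Mr2Statement) : MogStatement := by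
  intro a b
  obtain ⟨C, T1, hC, -, hsmv⟩ := h1
  obtain ⟨Ka, hKa, hda⟩ := diag_le h2 h4 h5 h6 h7 a
  obtain ⟨Kb, hKb, hdb⟩ := diag_le h2 h4 h5 h6 h7 b
  obtain ⟨K1, hK1, hl1⟩ := lam_le h3 h6 h7 a b
  obtain ⟨K2, hK2, hl2⟩ := lam_le h3 h6 h7 b a
  have hmain := main_term h2 h4 h5 h6 h7 a b
  -- the error function
  have hE : Tendsto (fun T : ℝ => C * (Ka * (ll T ^ a * Real.exp (-ll T)) +
      Kb * (ll T ^ b * Real.exp (-ll T)) + K1 / ll T ^ 2 + K2 / ll T ^ 2 + 4 / T)) atTop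
      (𝓝 (C * (Ka * 0 + Kb * 0 + 0 + 0 + 0))) := by
    have hx : ∀ k : ℕ, Tendsto (fun T : ℝ => ll T ^ k * Real.exp (-ll T)) atTop (𝓝 0) :=
      fun k => (Real.tendsto_pow_mul_exp_neg_atTop_nhds_zero k).comp ll_tendsto
    have hy : ∀ K : ℝ, Tendsto (fun T : ℝ => K / ll T ^ 2) atTop (𝓝 0) := fun K =>
      (tendsto_const_nhds (x := K)).div_atTop
        ((tendsto_pow_atTop (by norm_num)).comp ll_tendsto)
    have hz : Tendsto (fun T : ℝ => 4 / T) atTop (𝓝 0) :=
      (tendsto_const_nhds (x := (4 : ℝ))).div_atTop tendsto_id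
    exact ((((((hx a).const_mul Ka).add ((hx b).const_mul Kb)).add (hy K1)).add
      (hy K2)).add hz).const_mul C
  simp only [mul_zero, add_zero] at hE
  have hdiff : Tendsto (fun T : ℝ =>
      (∑ᶠ γ ∈ zset T, (mz γ : ℝ) * wt T γ *
        (P0 T γ ^ a * (starRingEnd ℂ) (P0 T γ) ^ b).re) /
        (cG T * Real.log T * Real.sqrt (ll T) ^ (a + b)) -
      (∑ n ∈ Finset.Icc 1 (NQ T),
        (pS (SS T 0) ^ a) n * (pS (SS T 0) ^ b) n / (n : ℝ)) / Real.sqrt (ll T) ^ (a + b))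
      atTop (𝓝 0) := by
    refine squeeze_zero_norm' ?_ hE
    filter_upwards [eventually_ge_atTop T1, hda, hdb, hl1, hl2, cGL_ge, facts h4 h5 a,
      facts h4 h5 b, ll_tendsto.eventually_ge_atTop 1,
      Real.tendsto_log_atTop.eventually_ge_atTop 1, eventually_ge_atTop (1 : ℝ)]
      with T hT1 hda hdb hl1 hl2 hcG hfa hfb hl hL hT0
    have hl0 : 0 < ll T := by linarith
    have hL0 : 0 < Real.log T := by linarith
    have hTp : 0 < T := by linarith
    have hcL : 0 < cG T * Real.log T := lt_of_lt_of_le (by positivity) hcG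
    have hc0 : 0 < cG T := (pos_iff_pos_of_mul_pos hcL).2 hL0
    have hs1 : 1 ≤ Real.sqrt (ll T) := by
      rw [Real.one_le_sqrt]; exact hl
    set w : ℝ := Real.sqrt (ll T) ^ (a + b) with hw
    have hw1 : 1 ≤ w := one_le_pow₀ hs1
    have hw0 : 0 < w := by linarith
    have h := hsmv T hT1 (pS (SS T 0) ^ a) (pS (SS T 0) ^ b) hfa.1 hfb.1
    have e1 : ∀ γ : ℝ, (mz γ : ℝ) * wt T γ * (DQ T (pS (SS T 0) ^ a) (1 / 2 + γ * I) *
        (starRingEnd ℂ) (DQ T (pS (SS T 0) ^ b) (1 / 2 + γ * I))).re =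
        (mz γ : ℝ) * wt T γ * (P0 T γ ^ a * (starRingEnd ℂ) (P0 T γ) ^ b).re := by
      intro γ
      rw [hfa.2, hfb.2, map_pow]
      rfl
    simp only [e1] at h
    rw [add_comm b a, ← hw] at hl2
    set N : ℝ := ∑ᶠ γ ∈ zset T, (mz γ : ℝ) * wt T γ *
        (P0 T γ ^ a * (starRingEnd ℂ) (P0 T γ) ^ b).re with hN
    set M : ℝ := ∑ n ∈ Finset.Icc 1 (NQ T),
        (pS (SS T 0) ^ a) n * (pS (SS T 0) ^ b) n / (n : ℝ) with hM
    have e2 : ∑ n ∈ Finset.Icc 1 (NQ T),
        ((pS (SS T 0) ^ a) n ^ 2 + (pS (SS T 0) ^ b) n ^ 2) / (n : ℝ) =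
        ∑ n ∈ Finset.Icc 1 (NQ T), (pS (SS T 0) ^ a) n ^ 2 / (n : ℝ) +
        ∑ n ∈ Finset.Icc 1 (NQ T), (pS (SS T 0) ^ b) n ^ 2 / (n : ℝ) := by
      rw [← Finset.sum_add_distrib]
      exact Finset.sum_congr rfl (fun n _ => by rw [add_div])
    rw [e2] at h
    have e3 : Real.exp (-ll T) * Real.log T = 1 := by
      have e4 : Real.exp (ll T) = Real.log T := Real.exp_log hL0
      rw [Real.exp_neg, e4, inv_mul_cancel₀ hL0.ne']
    have hden : 0 < cG T * Real.log T * w := mul_pos hcL hw0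
    have e5 : N / (cG T * Real.log T * w) - M / w =
        (N - cG T * Real.log T * M) / (cG T * Real.log T * w) := by
      have h8 : cG T ≠ 0 := hc0.ne'
      have h9 : Real.log T ≠ 0 := hL0.ne'
      have h10 : w ≠ 0 := hw0.ne'
      field_simp
    rw [e5, Real.norm_eq_abs, abs_div, abs_of_pos hden, div_le_iff₀ hden]
    refine h.trans ?_
    rw [mul_assoc C]
    refine mul_le_mul_of_nonneg_left ?_ hC.le
    have hla : 0 < ll T ^ a := by positivity
    have hlb : 0 < ll T ^ b := by positivity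
    have i1 : cG T * ∑ n ∈ Finset.Icc 1 (NQ T), (pS (SS T 0) ^ a) n ^ 2 / (n : ℝ) ≤
        Ka * (ll T ^ a * Real.exp (-ll T)) * (cG T * Real.log T * w) := by
      have e6 : Ka * (ll T ^ a * Real.exp (-ll T)) * (cG T * Real.log T * w) =
          cG T * (Ka * ll T ^ a * w) := by
        linear_combination (Ka * ll T ^ a * cG T * w) * e3
      rw [e6]
      refine mul_le_mul_of_nonneg_left (hda.2.trans ?_) hc0.le
      exact le_mul_of_one_le_right (by positivity) hw1
    have i2 : cG T * ∑ n ∈ Finset.Icc 1 (NQ T), (pS (SS T 0) ^ b) n ^ 2 / (n : ℝ) ≤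
        Kb * (ll T ^ b * Real.exp (-ll T)) * (cG T * Real.log T * w) := by
      have e6 : Kb * (ll T ^ b * Real.exp (-ll T)) * (cG T * Real.log T * w) =
          cG T * (Kb * ll T ^ b * w) := by
        linear_combination (Kb * ll T ^ b * cG T * w) * e3
      rw [e6]
      refine mul_le_mul_of_nonneg_left (hdb.2.trans ?_) hc0.le
      exact le_mul_of_one_le_right (by positivity) hw1
    have i3 : cG T * |∑ n ∈ Finset.Icc 1 (NQ T), (La * pS (SS T 0) ^ a) n *
        (pS (SS T 0) ^ b) n / (n : ℝ)| ≤ K1 / ll T ^ 2 * (cG T * Real.log T * w) := by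
      have e6 : K1 / ll T ^ 2 * (cG T * Real.log T * w) =
          cG T * (K1 * Real.log T / ll T ^ 2 * w) := by ring
      rw [e6]
      exact mul_le_mul_of_nonneg_left hl1 hc0.le
    have i4 : cG T * |∑ n ∈ Finset.Icc 1 (NQ T), (La * pS (SS T 0) ^ b) n *
        (pS (SS T 0) ^ a) n / (n : ℝ)| ≤ K2 / ll T ^ 2 * (cG T * Real.log T * w) := by
      have e6 : K2 / ll T ^ 2 * (cG T * Real.log T * w) =
          cG T * (K2 * Real.log T / ll T ^ 2 * w) := by ring
      rw [e6]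
      exact mul_le_mul_of_nonneg_left hl2 hc0.le
    have i5 : (1 : ℝ) ≤ 4 / T * (cG T * Real.log T * w) := by
      calc (1 : ℝ) = 4 / T * (T / 4 * 1) := by field_simp
        _ ≤ 4 / T * (cG T * Real.log T * w) := by gcongr
    rw [add_mul, add_mul, add_mul, add_mul, mul_add, mul_add, mul_add]
    linarith
  have h := hdiff.add hmain
  simpa using h

end Pool.Agent.Lib.MP_6bc78b_nt.MS.QZ.H88
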